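import Mathlib
import Pool.Agent.Lib.MP_67fdd1_al.Main

set_option autoImplicit false

namespace Pool.Agent.Results.MP_67fdd1_al.IdempotentMVarieties

open Pool.Agent.Lib.MP_67fdd1_al

/-- Every idempotent variety `X` of `m`-groups, other than the trivial variety and the variety of
all `m`-groups, is of the form `X_ε` for a periodic sequence `ε` of zeros and ones. The sequence can
be taken constant: `X` is the join of the powers of `𝒵` or the join of the powers of `𝒜`. -/
theorem result (X : MClass) (hX : IsVariety X)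
    (hidem : ∀ (G : Type) [MGroup G], Prd X X G ↔ X G)
    (hne_trivial : ¬ ∀ (G : Type) [MGroup G], X G → ∀ g : G, g = 1)
    (hne_all : ¬ ∀ (G : Type) [MGroup G], X G) :
    ∃ ε : ℕ → Bool, (∃ k : ℕ, 0 < k ∧ ∀ n, ε (n + k) = ε n) ∧ (∀ m n, ε m = ε n) ∧
      ∀ (G : Type) [MGroup G], X G ↔ XEps ε G := by
  obtain ⟨b, hb⟩ := main X hX hidem hne_trivial hne_all
  exact ⟨fun _ => b, ⟨1, one_pos, fun _ => rfl⟩, fun _ _ => rfl, hb⟩

end Pool.Agent.Results.MP_67fdd1_al.IdempotentMVarieties
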